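import Pool.Agent.Run7.h719.MO.Iface

set_option autoImplicit false

open MeasureTheory Set Filter Real
open scoped ContDiff Topology

namespace Run7.h842.MO

theorem t_CHG : Run7.h719.MO.S_CHG := by
  intro p x c δ w ψ i hp hδ hd hw hψ hi hiv hψ0
  set F : ℝ → ℝ := fun σ => w (σ ^ 2) * ψ (x - σ ^ 2) * i (4 * p - σ ^ 2) with hF
  have hFc : Continuous F := by
    have h2 : Continuous (fun σ : ℝ => σ ^ 2) := continuous_pow 2
    exact ((hw.comp h2).mul (hψ.comp (continuous_const.sub h2))).mul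
      (hi.comp (continuous_const.sub h2))
  have hsp : 0 < √p := Real.sqrt_pos.mpr hp
  have hsq : √p ^ 2 = p := Real.sq_sqrt hp.le
  -- reduce the right side
  have e1 : (∫ σ : ℝ, F σ) = 2 * ∫ σ in Ioi (0 : ℝ), F σ := by
    rw [← integral_comp_abs (f := F)]
    refine integral_congr_ae (Eventually.of_forall fun σ => ?_)
    simp only [hF, sq_abs]
  have e2 : (∫ σ in Ioi (0 : ℝ), F σ) = ∫ σ in (0 : ℝ)..(2 * √p), F σ := by
    rw [intervalIntegral.integral_of_le (by positivity)]
    refine setIntegral_eq_of_subset_of_forall_sdiff_eq_zero measurableSet_Ioi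
      (fun y hy => hy.1) ?_
    rintro y ⟨hy0, hy1⟩
    have hy0' : 0 < y := hy0
    have hy2 : 2 * √p < y := by
      by_contra hcon
      exact hy1 ⟨hy0', not_lt.mp hcon⟩
    have hy3 : 4 * p ≤ y ^ 2 := by nlinarith
    have : ψ (x - y ^ 2) = 0 := hψ0 _ (by linarith)
    simp only [hF, this, mul_zero, zero_mul]
  have hder : ∀ θ ∈ uIcc (0 : ℝ) π,
      HasDerivAt (fun θ : ℝ => 2 * √p * Real.sin (θ / 2)) (√p * Real.cos (θ / 2)) θ := by
    intro θ _
    have h1 : HasDerivAt (fun θ : ℝ => θ / 2) (1 / 2) θ := (hasDerivAt_id θ).div_const 2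
    have h2 := (h1.sin).const_mul (2 * √p)
    have h3 : 2 * √p * (Real.cos (θ / 2) * (1 / 2)) = √p * Real.cos (θ / 2) := by ring
    rw [h3] at h2
    exact h2
  have e3 := intervalIntegral.integral_comp_mul_deriv (a := 0) (b := π) (g := F) hder
    (by fun_prop) hFc
  have hb0 : 2 * √p * Real.sin ((0 : ℝ) / 2) = 0 := by simp
  have hb1 : 2 * √p * Real.sin (π / 2) = 2 * √p := by simp
  rw [hb0, hb1] at e3
  rw [e1, e2, ← e3, ← intervalIntegral.integral_const_mul]
  refine intervalIntegral.integral_congr ?_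
  intro θ hθ
  rw [uIcc_of_le Real.pi_pos.le] at hθ
  have hcos : 0 ≤ Real.cos (θ / 2) :=
    Real.cos_nonneg_of_neg_pi_div_two_le_of_le (by linarith [hθ.1, Real.pi_pos])
      (by linarith [hθ.2])
  have hcc : Real.cos θ = 1 - 2 * Real.sin (θ / 2) ^ 2 := by
    have h := Real.cos_two_mul (θ / 2)
    rw [show 2 * (θ / 2) = θ by ring] at h
    have h' := Real.sin_sq_add_cos_sq (θ / 2)
    linarith
  have hσ : (2 * √p * Real.sin (θ / 2)) ^ 2 = 2 * p * (1 - Real.cos θ) := by
    rw [hcc, mul_pow, mul_pow, hsq]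
    ring
  have h4 : 4 * p - 2 * p * (1 - Real.cos θ) = (2 * √p * Real.cos (θ / 2)) ^ 2 := by
    have h' := Real.sin_sq_add_cos_sq (θ / 2)
    rw [hcc, mul_pow, mul_pow, hsq]
    have : Real.cos (θ / 2) ^ 2 = 1 - Real.sin (θ / 2) ^ 2 := by linarith
    rw [this]
    ring
  simp only [Function.comp, hF, hσ]
  by_cases hz : x - 2 * p * (1 - Real.cos θ) ≤ c
  · rw [hψ0 _ hz]
    ring
  · have hz' : c < x - 2 * p * (1 - Real.cos θ) := not_le.mp hz
    have h5 : δ ≤ 4 * p - 2 * p * (1 - Real.cos θ) := by linarith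
    rw [hiv _ h5, h4, Real.sqrt_sq (by positivity)]
    have h6 : 0 < Real.cos (θ / 2) := by
      rcases hcos.lt_or_eq with h | h
      · exact h
      · exfalso
        rw [← h] at h4
        rw [h4] at h5
        norm_num at h5
        linarith
    field_simp

end Run7.h842.MO
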