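import Pool.Agent.Run7.h719.MO.Iface

set_option autoImplicit false

open MeasureTheory Set Filter Real
open scoped ContDiff Topology

namespace Run7.h842.MO

theorem t_EXT : Run7.h719.MO.S_EXT := by
  intro φ δ hδ hφ
  refine ⟨fun x => Real.smoothTransition ((x - δ / 2) / (δ / 2)) * φ x, ?_, ?_⟩
  · rw [contDiff_iff_contDiffAt]
    intro x
    rcases lt_or_ge 0 x with hx | hx
    · have h1 : ContDiffAt ℝ ∞ φ x := hφ.contDiffAt (Ioi_mem_nhds hx)
      have h2 : ContDiffAt ℝ ∞ (fun x : ℝ => Real.smoothTransition ((x - δ / 2) / (δ / 2))) x := by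
        have : ContDiff ℝ ∞ (fun x : ℝ => Real.smoothTransition ((x - δ / 2) / (δ / 2))) :=
          Real.smoothTransition.contDiff.comp ((contDiff_id.sub contDiff_const).div_const _)
        exact this.contDiffAt
      exact h2.mul h1
    · have h3 : (fun x : ℝ => Real.smoothTransition ((x - δ / 2) / (δ / 2)) * φ x) =ᶠ[𝓝 x]
          fun _ => (0 : ℝ) := by
        have hx' : x < δ / 2 := by linarith
        filter_upwards [Iio_mem_nhds hx'] with y hy
        have hy' : y < δ / 2 := hy
        have : (y - δ / 2) / (δ / 2) ≤ 0 :=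
          div_nonpos_of_nonpos_of_nonneg (by linarith) (by linarith)
        rw [Real.smoothTransition.zero_of_nonpos this, zero_mul]
      exact (contDiffAt_const (c := (0 : ℝ))).congr_of_eventuallyEq h3
  · intro x hx
    have : 1 ≤ (x - δ / 2) / (δ / 2) := by
      rw [le_div_iff₀ (by linarith)]
      linarith
    show Real.smoothTransition ((x - δ / 2) / (δ / 2)) * φ x = φ x
    rw [Real.smoothTransition.one_of_one_le this, one_mul]

end Run7.h842.MO
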